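import Mathlib
import Pool.Agent.H500.HC.Stm

set_option autoImplicit false
set_option linter.unusedSectionVars false

/-!
# Project HC, part B2: the exponents of ray class characters modulo a place of degree one
-/

namespace Pool.Agent.H181.HC.Exp

open NumberField IsDedekindDomain
open Pool.Agent.H500.HC

section ray

variable {K : Type} [Field K] [NumberField K]

/-- the elements in the ray modulo `N` -/
def raySub (N : ℕ) : Submonoid (𝓞 K) where
  carrier := {x | InRay N x}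
  one_mem' := by
    refine ⟨one_ne_zero, ?_, fun τ => ?_⟩
    · rw [sub_self]
      exact dvd_zero _
    · have h1 : ((1 : 𝓞 K) : K) = 1 := map_one _
      rw [h1, map_one]
      exact one_pos
  mul_mem' := by
    rintro x y ⟨hx0, hx1, hx2⟩ ⟨hy0, hy1, hy2⟩
    refine ⟨mul_ne_zero hx0 hy0, ?_, fun τ => ?_⟩
    · have h1 : x * y - 1 = (x - 1) * y + (y - 1) := by ring
      rw [h1]
      exact dvd_add (hx1.mul_right _) hy1
    · have h1 : ((x * y : 𝓞 K) : K) = (x : K) * (y : K) := map_mul _ _ _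
      rw [h1, map_mul]
      exact mul_pos (hx2 τ) (hy2 τ)

theorem mem_raySub {N : ℕ} {x : 𝓞 K} : x ∈ raySub N ↔ InRay N x := Iff.rfl

theorem inRay_mul {N l : ℕ} (hc : Nat.Coprime N l) {x : 𝓞 K} (h : InRay N x) (hl : (l : 𝓞 K) ∣ x - 1) :
    InRay (N * l) x := by
  refine ⟨h.1, ?_, h.2.2⟩
  rw [Nat.cast_mul]
  have h1 : IsCoprime (N : 𝓞 K) (l : 𝓞 K) := by
    have h2 : IsCoprime (N : ℤ) (l : ℤ) := Nat.isCoprime_iff_coprime.2 hc
    have h3 := h2.map (Int.castRingHom (𝓞 K))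
    simpa using h3
  exact h1.mul_dvd h.2.1 hl

end ray

section prim

variable {k : Type} [Field k]

/-- a primitive root -/
theorem exists_prim (l : ℕ) [Fact l.Prime] [CharP k l] : ∃ g : ℤ, IsPrimitiveRoot (g : k) (l - 1) ∧
    ∀ c : ℤ, (c : k) ≠ 0 → ∃ b : ℕ, (c : k) = (g : k) ^ b := by
  obtain ⟨g, hg⟩ := IsCyclic.exists_generator (α := (ZMod l)ˣ)
  have h1 : IsPrimitiveRoot g (l - 1) := by
    have h2 := IsPrimitiveRoot.orderOf g
    rw [orderOf_eq_card_of_forall_mem_zpowers hg, Nat.card_eq_fintype_card, ZMod.card_units] at h2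
    exact h2
  have h2 : IsPrimitiveRoot (g : ZMod l) (l - 1) := IsPrimitiveRoot.coe_units_iff.2 h1
  have h3 := h2.map_of_injective (f := ZMod.castHom (dvd_refl l) k) (ZMod.castHom_injective k)
  have h4 : (ZMod.castHom (dvd_refl l) k) (g : ZMod l) = (((g : ZMod l).val : ℤ) : k) := by
    have h5 : (g : ZMod l) = (((g : ZMod l).val : ℕ) : ZMod l) := (ZMod.natCast_zmod_val _).symm
    conv_lhs => rw [h5]
    rw [map_natCast, Int.cast_natCast]
  rw [h4] at h3
  refine ⟨((g : ZMod l).val : ℤ), h3, fun c hc => ?_⟩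
  have hc' : (c : ZMod l) ≠ 0 := by
    intro h
    apply hc
    have h6 := congrArg (ZMod.castHom (dvd_refl l) k) h
    rwa [map_intCast, map_zero] at h6
  obtain ⟨b, hb⟩ := (mem_powers_iff_mem_zpowers (x := g) (y := Units.mk0 _ hc')).2 (hg _)
  refine ⟨b, ?_⟩
  have h7 : (g : ZMod l) ^ b = (c : ZMod l) := by
    have h8 := congrArg (fun u : (ZMod l)ˣ => (u : ZMod l)) hb
    simpa using h8
  have h9 := congrArg (ZMod.castHom (dvd_refl l) k) h7
  rw [map_pow, h4, map_intCast] at h9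
  exact h9.symm

end prim

/-- a place of degree one: all elements are integers modulo `lam` -/
theorem exists_int {E : Type} [Field E] [NumberField E] (lam : HeightOneSpectrum (𝓞 E))
    (hl : (Ideal.absNorm lam.asIdeal).Prime) (z : 𝓞 E) : ∃ c : ℤ, z - (c : 𝓞 E) ∈ lam.asIdeal := by
  have := Fact.mk hl
  have h1 : Nat.card (𝓞 E ⧸ lam.asIdeal) = Ideal.absNorm lam.asIdeal := by
    rw [Ideal.absNorm_apply]
    rfl
  have hne : (1 : 𝓞 E ⧸ lam.asIdeal) ≠ 0 := by
    intro h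
    apply lam.isPrime.ne_top
    rw [Ideal.eq_top_iff_one, ← Ideal.Quotient.eq_zero_iff_mem]
    exact h
  have h2 := mem_zmultiples_of_prime_card h1 hne (g' := Ideal.Quotient.mk lam.asIdeal z)
  obtain ⟨c, hc⟩ := AddSubgroup.mem_zmultiples_iff.1 h2
  refine ⟨c, ?_⟩
  rw [← Ideal.Quotient.eq_zero_iff_mem, map_sub, ← hc, map_intCast, zsmul_one, sub_self]

theorem main (hC : S_Crt) : S_Exp := by
  classical
  intro K E _ _ _ _ hcard
  obtain ⟨B, hB⟩ := hC K E hcard
  refine ⟨B, fun lam hl hlB N hN hlN k _ φ hφ χ hχ => ?_⟩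
  obtain ⟨hC1, hC2⟩ := hB lam hl hlB
  obtain ⟨l, hll⟩ : ∃ l, l = Ideal.absNorm lam.asIdeal := ⟨_, rfl⟩
  rw [← hll] at hl hC1 hC2 hlN hχ
  have := Fact.mk hl
  have hl2 := hl.two_le
  have hmem : ∀ z : 𝓞 E, z ∈ lam.asIdeal ↔ φ z = 0 := by
    intro z
    rw [← hφ, RingHom.mem_ker]
  have hchar : CharP k l := by
    have h1 : ((l : ℕ) : k) = 0 := by
      have h2 : ((l : ℕ) : 𝓞 E) ∈ lam.asIdeal := by
        rw [hll]
        exact Ideal.absNorm_mem _
      rw [hmem, map_natCast] at h2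
      exact h2
    exact (CharP.charP_iff_prime_eq_zero hl).2 h1
  have hcop : Nat.Coprime N l := ((Nat.Prime.coprime_iff_not_dvd hl).2 hlN).symm
  obtain ⟨g, hg, hgc⟩ := exists_prim (k := k) l
  have hg1 : (g : k) ^ (l - 1) = 1 := hg.pow_eq_one
  -- divisibility by `l`
  have hdiv : ∀ x : 𝓞 K, (∀ σ : K →+* E, φ (em σ x) = 1) → ((l : ℕ) : 𝓞 K) ∣ x - 1 := by
    intro x hx
    apply hC1
    intro σ
    rw [hmem]
    have h1 : em σ (x - 1) = em σ x - 1 := by
      unfold Pool.Agent.H500.HC.em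
      rw [map_sub, map_one]
    rw [h1, map_sub, map_one, hx, sub_self]
  -- the elements `y σ`
  choose y hy1 hy2 using fun σ : K →+* E => hC2 N hN hlN (fun τ => if τ = σ then g else 1)
  have hy3 : ∀ σ τ, φ (em τ (y σ)) = if τ = σ then (g : k) else 1 := by
    intro σ τ
    have h1 := hy2 σ τ
    rw [hmem, map_sub, map_intCast, sub_eq_zero] at h1
    rw [h1]
    split_ifs
    · rfl
    · exact Int.cast_one
  have hem_mul : ∀ (τ : K →+* E) (a b : 𝓞 K), em τ (a * b) = em τ a * em τ b := fun τ a b => map_mul _ _ _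
  have hem_pow : ∀ (τ : K →+* E) (a : 𝓞 K) (n : ℕ), em τ (a ^ n) = em τ a ^ n := fun τ a n => map_pow _ _ _
  have hspan_mul : ∀ a b : 𝓞 K, χ (Ideal.span {a * b}) = χ (Ideal.span {a}) * χ (Ideal.span {b}) := by
    intro a b
    rw [← Ideal.span_singleton_mul_span_singleton, map_mul]
  have hspan_pow : ∀ (a : 𝓞 K) (n : ℕ), χ (Ideal.span {a ^ n}) = χ (Ideal.span {a}) ^ n := by
    intro a n
    rw [← Ideal.span_singleton_pow, map_pow]
  have hspan_prod : ∀ (s : Finset (K →+* E)) (f : (K →+* E) → 𝓞 K),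
      χ (Ideal.span {∏ σ ∈ s, f σ}) = ∏ σ ∈ s, χ (Ideal.span {f σ}) := by
    intro s f
    rw [← Ideal.prod_span_singleton, map_prod]
  have ha : ∀ σ, ∃ a : ℕ, χ (Ideal.span {y σ}) = (g : k) ^ a ∧ χ (Ideal.span {y σ}) ^ (l - 1) = 1 := by
    intro σ
    have h1 : InRay (N * l) (y σ ^ (l - 1)) := by
      refine inRay_mul hcop ((raySub N).pow_mem (mem_raySub.2 (hy1 σ)) _) (hdiv _ fun τ => ?_)
      rw [hem_pow, map_pow, hy3]
      split_ifs
      · exact hg1
      · exact one_pow _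
    have h2 := hχ.ray _ h1
    rw [hspan_pow] at h2
    have : NeZero (l - 1) := ⟨by omega⟩
    obtain ⟨a, -, ha⟩ := hg.eq_pow_of_pow_eq_one h2
    exact ⟨a, ha.symm, h2⟩
  choose a ha1 ha2 using ha
  refine ⟨a, fun x hx hxl => ?_⟩
  -- the exponents of `x`
  have hb : ∀ σ : K →+* E, ∃ b : ℕ, φ (em σ x) = (g : k) ^ b := by
    intro σ
    obtain ⟨c, hc⟩ := exists_int lam (by rw [← hll]; exact hl) (em σ x)
    rw [hmem, map_sub, map_intCast, sub_eq_zero] at hc
    have h1 : (c : k) ≠ 0 := by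
      rw [← hc]
      intro h2
      exact hxl σ ((hmem _).2 h2)
    obtain ⟨b, hb⟩ := hgc c h1
    exact ⟨b, by rw [hc, hb]⟩
  choose b hb using hb
  have hz : InRay (N * l) (x * ∏ σ, y σ ^ ((l - 2) * b σ)) := by
    refine inRay_mul hcop ((raySub N).mul_mem (mem_raySub.2 hx) ((raySub N).prod_mem fun σ _ =>
      (raySub N).pow_mem (mem_raySub.2 (hy1 σ)) _)) (hdiv _ fun τ => ?_)
    have h1 : em τ (∏ σ, y σ ^ ((l - 2) * b σ)) = ∏ σ, em τ (y σ) ^ ((l - 2) * b σ) := by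
      unfold Pool.Agent.H500.HC.em
      rw [map_prod]
      exact Finset.prod_congr rfl fun σ _ => map_pow _ _ _
    rw [hem_mul, h1, map_mul, map_prod, hb]
    have h2 : ∏ σ, φ (em τ (y σ) ^ ((l - 2) * b σ)) = (g : k) ^ ((l - 2) * b τ) := by
      rw [Finset.prod_eq_single τ]
      · rw [map_pow, hy3, if_pos rfl]
      · intro σ _ hσ
        rw [map_pow, hy3, if_neg hσ.symm, one_pow]
      · intro h
        exact absurd (Finset.mem_univ _) h
    rw [h2, ← pow_add]
    have h3 : b τ + (l - 2) * b τ = (l - 1) * b τ := by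
      obtain ⟨m, rfl⟩ := Nat.exists_eq_add_of_le hl2
      have e1 : 2 + m - 2 = m := by omega
      have e2 : 2 + m - 1 = m + 1 := by omega
      rw [e1, e2]
      ring
    rw [h3, pow_mul, hg1, one_pow]
  have h1 := hχ.ray _ hz
  rw [hspan_mul, hspan_prod] at h1
  have h1' : χ (Ideal.span {x}) * ∏ σ, χ (Ideal.span {y σ ^ ((l - 2) * b σ)}) = 1 := h1
  have h2 : (χ (Ideal.span {x}) * ∏ σ, χ (Ideal.span {y σ ^ ((l - 2) * b σ)})) * ∏ σ, χ (Ideal.span {y σ}) ^ b σ =
      ∏ σ, χ (Ideal.span {y σ}) ^ b σ := by rw [h1', one_mul]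
  rw [mul_assoc, ← Finset.prod_mul_distrib] at h2
  have h3 : ∏ σ, (χ (Ideal.span {y σ ^ ((l - 2) * b σ)}) * χ (Ideal.span {y σ}) ^ b σ) = 1 := by
    apply Finset.prod_eq_one
    intro σ _
    rw [hspan_pow, ← pow_add]
    have h4 : (l - 2) * b σ + b σ = (l - 1) * b σ := by
      obtain ⟨m, rfl⟩ := Nat.exists_eq_add_of_le hl2
      have e1 : 2 + m - 2 = m := by omega
      have e2 : 2 + m - 1 = m + 1 := by omega
      rw [e1, e2]
      ring
    rw [h4, pow_mul, ha2, one_pow]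
  rw [h3, mul_one] at h2
  rw [h2]
  refine Finset.prod_congr rfl fun σ _ => ?_
  rw [ha1, hb, ← pow_mul, ← pow_mul, mul_comm]

end Pool.Agent.H181.HC.Exp
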