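import Mathlib
import Pool.Agent.H500.HC.Stm2

set_option autoImplicit false
set_option linter.unusedSectionVars false

/-!
# Project HC, part G0: descent to `E`
-/

namespace Pool.Agent.H181.HC.Desc

open NumberField IsDedekindDomain Polynomial
open Pool.Agent.H500.HC

/-- an element all of whose conjugates are equal to it -/
theorem mem_of_conj {E : Type} [Field E] [NumberField E] (j : E →+* QBar) {a : QBar}
    {g : E[X]} (hg : g ≠ 0) (hga : (g.map j).eval a = 0)
    (h : ∀ β : QBar, (∀ q : E[X], (q.map j).eval a = 0 → (q.map j).eval β = 0) → β = a) :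
    ∃ b : E, j b = a := by
  classical
  let _ : Algebra E QBar := j.toAlgebra
  have haev : ∀ (q : E[X]) (x : QBar), aeval x q = (q.map j).eval x := by
    intro q x
    rw [aeval_def, eval₂_eq_eval_map]
    rfl
  have hint : IsIntegral E a := IsAlgebraic.isIntegral ⟨g, hg, by rw [haev]; exact hga⟩
  have hsep : (minpoly E a).Separable := (minpoly.irreducible hint).separable
  have hsp : ((minpoly E a).map (algebraMap E QBar)).Splits := IsAlgClosed.splits _
  have hroot : ∀ β ∈ ((minpoly E a).map (algebraMap E QBar)).roots, β = a := by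
    intro β hβ
    apply h
    intro q hq
    have h1 : minpoly E a ∣ q := minpoly.dvd E a (by rw [haev]; exact hq)
    obtain ⟨r, rfl⟩ := h1
    have h2 : ((minpoly E a).map j).eval β = 0 := by
      have h3 := (mem_roots'.1 hβ).2
      exact h3
    rw [Polynomial.map_mul, eval_mul, h2, zero_mul]
  have hcard : ((minpoly E a).map (algebraMap E QBar)).roots.card = (minpoly E a).natDegree := by
    rw [← hsp.natDegree_eq_card_roots, natDegree_map]
  have hnd : ((minpoly E a).map (algebraMap E QBar)).roots.Nodup := nodup_roots hsep.map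
  have hle : ((minpoly E a).map (algebraMap E QBar)).roots.card ≤ 1 := by
    have h1 : ((minpoly E a).map (algebraMap E QBar)).roots ≤ {a} := by
      rw [Multiset.le_iff_subset hnd]
      intro β hβ
      rw [Multiset.mem_singleton]
      exact hroot β hβ
    have h2 := Multiset.card_le_card h1
    rwa [Multiset.card_singleton] at h2
  have hdeg : (minpoly E a).natDegree = 1 := by
    have h1 := minpoly.natDegree_pos hint
    omega
  obtain ⟨b, hb⟩ := minpoly.natDegree_eq_one_iff.1 hdeg
  exact ⟨b, hb⟩

theorem main : S_Desc := by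
  classical
  intro E _ _ j n f α hf k _ ψ l hl hlk hln hψ i0 M e hM he
  obtain ⟨a, ha⟩ : ∃ a, a = algebraMap ZBar QBar (α i0) := ⟨_, rfl⟩
  rw [← ha] at he
  have hmon : f.Monic := by
    apply monic_of_injective (jz_inj j)
    rw [hf]
    exact monic_prod_of_monic _ _ fun i _ => monic_X_sub_C _
  have hn : f.natDegree = n := by
    have h1 : (f.map (jz j)).natDegree = f.natDegree := hmon.natDegree_map _
    rw [← h1, hf, natDegree_prod_of_monic _ _ fun i _ => monic_X_sub_C _]
    simp
  obtain ⟨g, hgdef⟩ : ∃ g : E[X], g = f.map (algebraMap (𝓞 E) E) := ⟨_, rfl⟩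
  have hgm : g.Monic := by rw [hgdef]; exact hmon.map _
  have hgn : g.natDegree = n := by
    rw [hgdef, hmon.natDegree_map, hn]
  have hg : g.map j = ∏ i, (X - Polynomial.C (algebraMap ZBar QBar (α i))) := by
    have h1 := congrArg (Polynomial.map (algebraMap ZBar QBar)) hf
    rw [Polynomial.map_map, Polynomial.map_prod] at h1
    simp only [Polynomial.map_sub, Polynomial.map_X, Polynomial.map_C] at h1
    rw [← h1, hgdef, Polynomial.map_map]
    rfl
  have hgα : ∀ i, (g.map j).eval (algebraMap ZBar QBar (α i)) = 0 := by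
    intro i
    rw [hg, eval_prod]
    exact Finset.prod_eq_zero (Finset.mem_univ i) (by simp)
  have hga : (g.map j).eval a = 0 := by rw [ha]; exact hgα i0
  have hα0 : α i0 ≠ 0 := by
    intro h0
    have h1 := hψ i0
    rw [h0, map_zero] at h1
    exact zero_ne_one h1
  have ha0 : a ≠ 0 := by
    rw [ha]
    intro h0
    exact hα0 (zq_inj (h0.trans (map_zero _).symm))
  obtain ⟨b, hb⟩ := mem_of_conj j hgm.ne_zero hga fun β hβ => by
    have h1 := hβ g hga
    have h2 : β ^ M = j e := by
      have h3 := hβ (X ^ M - Polynomial.C e) (by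
        rw [Polynomial.map_sub, Polynomial.map_pow, Polynomial.map_X, Polynomial.map_C, eval_sub,
          eval_pow, eval_X, eval_C, he, sub_self])
      rw [Polynomial.map_sub, Polynomial.map_pow, Polynomial.map_X, Polynomial.map_C, eval_sub,
        eval_pow, eval_X, eval_C] at h3
      exact sub_eq_zero.1 h3
    have h1' := h1
    rw [hg, eval_prod] at h1'
    obtain ⟨i, -, hi⟩ := Finset.prod_eq_zero_iff.1 h1'
    rw [eval_sub, eval_X, eval_C, sub_eq_zero] at hi
    have h4 : α i ^ M = α i0 ^ M := by
      apply zq_inj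
      rw [map_pow, map_pow, ← hi, ← ha, h2, he]
    obtain ⟨ζ, hζ, hζα⟩ := exists_ratio hM hα0 h4
    have h5 : ψ ζ = 1 := by
      have h6 := hψ i
      rw [hζα, map_mul, hψ i0, mul_one] at h6
      exact h6
    have h7 : algebraMap ZBar QBar ζ = β / a := by
      rw [hi, hζα, map_mul, ← ha]
      field_simp
    have h8 : (minpoly ℚ (ζ : QBar)).natDegree ≤ n * (n * Module.finrank ℚ E) := by
      have h9 := deg_quot j g hgm.ne_zero hga h1
      rw [hgn, ← h7] at h9
      exact h9
    have h10 := ru_one ψ hl hlk hln h8 hM hζ h5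
    rw [hi, hζα, h10, one_mul, ha]
  have hbint : IsIntegral ℤ b := by
    have h1 : IsIntegral ℤ (j b) := by
      rw [hb, ha]
      exact (α i0).2
    exact (isIntegral_algHom_iff j.toIntAlgHom j.injective).1 h1
  refine ⟨⟨b, hbint⟩, ?_⟩
  apply zq_inj
  rw [← ha, ← hb]
  rfl

end Pool.Agent.H181.HC.Desc
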